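import Mathlib

set_option autoImplicit false

/-!
Counting words over a finite field without long windows of small linear complexity.
-/

namespace Pool.Agent.R331.TL

open Finset

variable {F : Type} [Field F] [Fintype F]

/-- `s` satisfies, on the window starting at `v` and of length `2m+l`, a linear recurrence of
order `m` with nonzero constant coefficient. -/
def Bad (l : ℕ) (s : ℕ → F) (v m : ℕ) : Prop :=
  ∃ a : ℕ → F, a 0 ≠ 0 ∧ ∀ j, j < m + l → ∑ i ∈ range (m+1), a i * s (v + j + i) = 0

/-- commutation of two recurrence operators -/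
theorem comm_op (m : ℕ) (a a' y : ℕ → F) :
    ∑ i ∈ range (m+1), a i * ∑ k ∈ range (m+1), a' k * y (i + k) =
      ∑ k ∈ range (m+1), a' k * ∑ i ∈ range (m+1), a i * y (k + i) := by
  simp_rw [Finset.mul_sum]
  rw [Finset.sum_comm]
  apply Finset.sum_congr rfl
  intro k _
  apply Finset.sum_congr rfl
  intro i _
  rw [add_comm i k]
  ring

/-- the backward continuation of a word of length `2m` is unique -/
theorem back_unique (m : ℕ) (a a' : ℕ → F) (ha : a 0 ≠ 0) (ha' : a' 0 ≠ 0) (y y' : ℕ → F)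
    (hyy : ∀ p, 1 ≤ p → p < 2*m+1 → y p = y' p)
    (h : ∀ j, j < m+1 → ∑ i ∈ range (m+1), a i * y (j + i) = 0)
    (h' : ∀ j, j < m+1 → ∑ i ∈ range (m+1), a' i * y' (j + i) = 0) : y 0 = y' 0 := by
  -- A' y at positions 1..m vanish
  have e1 : ∀ i, 1 ≤ i → i < m+1 → ∑ k ∈ range (m+1), a' k * y (i + k) = 0 := by
    intro i h1 h2
    rw [← h' i h2]
    apply Finset.sum_congr rfl
    intro k hk
    rw [Finset.mem_range] at hk
    rw [hyy (i+k) (by omega) (by omega)]
  have e2 : ∑ i ∈ range (m+1), a i * ∑ k ∈ range (m+1), a' k * y (i + k) = a 0 * ∑ k ∈ range (m+1), a' k * y (0 + k) := by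
    rw [Finset.sum_range_succ']
    rw [Finset.sum_eq_zero, zero_add]
    intro i hi
    rw [Finset.mem_range] at hi
    rw [e1 (i+1) (by omega) (by omega), mul_zero]
  have e3 : ∑ k ∈ range (m+1), a' k * ∑ i ∈ range (m+1), a i * y (k + i) = 0 := by
    apply Finset.sum_eq_zero
    intro k hk
    rw [Finset.mem_range] at hk
    rw [h k hk, mul_zero]
  rw [comm_op, e3] at e2
  have e4 : ∑ k ∈ range (m+1), a' k * y (0 + k) = 0 := by
    rcases mul_eq_zero.mp e2.symm with h0 | h0
    · exact absurd h0 ha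
    · exact h0
  have e5 := h' 0 (by omega)
  rw [Finset.sum_range_succ'] at e4 e5
  have e6 : ∑ k ∈ range m, a' (k+1) * y (0 + (k+1)) = ∑ k ∈ range m, a' (k+1) * y' (0 + (k+1)) := by
    apply Finset.sum_congr rfl
    intro k hk
    rw [Finset.mem_range] at hk
    rw [hyy (0+(k+1)) (by omega) (by omega)]
  rw [e6] at e4
  have e7 : a' 0 * y (0+0) = a' 0 * y' (0+0) := by
    have := e4.trans e5.symm
    exact add_left_cancel this
  exact mul_left_cancel₀ ha' e7

theorem unique_ext {l m v : ℕ} {s s' : ℕ → F} (hs : Bad l s v m) (hs' : Bad l s' v m)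
    (h : ∀ p, v + l ≤ p → p < v + 2*m + l → s p = s' p) : ∀ p, v ≤ p → p < v + 2*m+l → s p = s' p := by
  obtain ⟨a, ha, hA⟩ := hs
  obtain ⟨a', ha', hA'⟩ := hs'
  have key : ∀ k, k ≤ l → ∀ p, v + l - k ≤ p → p < v + 2*m + l → s p = s' p := by
    intro k
    induction k with
    | zero => intro _ p h1 h2; exact h p (by omega) h2
    | succ k ih =>
      intro hk p h1 h2
      rcases Nat.eq_or_lt_of_le h1 with h3 | h3
      · -- p = v + l - (k+1)
        have := back_unique m a a' ha ha' (fun i => s (p + i)) (fun i => s' (p + i))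
          (fun i hi1 hi2 => ih (by omega) (p+i) (by omega) (by omega))
          (fun j hj => by
            have := hA (p - v + j) (by omega)
            rw [← this]
            apply Finset.sum_congr rfl
            intro i _
            have e : p + (j + i) = v + (p - v + j) + i := by omega
            show a i * s (p + (j+i)) = _
            rw [e])
          (fun j hj => by
            have := hA' (p - v + j) (by omega)
            rw [← this]
            apply Finset.sum_congr rfl
            intro i _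
            have e : p + (j + i) = v + (p - v + j) + i := by omega
            show a' i * s' (p + (j+i)) = _
            rw [e])
        exact this
      · exact ih (by omega) p (by omega) h2
  intro p h1 h2
  exact key l le_rfl p (by omega) h2

theorem Bad_congr {l : ℕ} {s s' : ℕ → F} {v m : ℕ} (h : ∀ p, v ≤ p → s p = s' p) (hs : Bad l s v m) :
    Bad l s' v m := by
  obtain ⟨a, ha, hA⟩ := hs
  refine ⟨a, ha, fun j hj => ?_⟩
  rw [← hA j hj]
  apply Finset.sum_congr rfl
  intro i _
  rw [h _ (by omega)]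

/-- admissible words on the positions `[i, e)` -/
def G (l : ℕ → ℕ) (i e : ℕ) : Set (ℕ → F) :=
  {s | (∀ p, p < i ∨ e ≤ p → s p = 0) ∧
    ∀ v m, i ≤ v → v + 2*m + l (v+m) ≤ e → ¬ Bad (l (v+m)) s v m}

theorem supp_finite (e : ℕ) : {s : ℕ → F | ∀ p, e ≤ p → s p = 0}.Finite := by
  have : Set.InjOn (fun (s : ℕ → F) (i : Fin e) => s i) {s : ℕ → F | ∀ p, e ≤ p → s p = 0} := by
    intro s hs s' hs' h
    funext p
    rcases Nat.lt_or_ge p e with hp | hp
    · exact congrFun h ⟨p, hp⟩
    · rw [hs p hp, hs' p hp]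
  exact Set.Finite.of_finite_image (Set.toFinite _) this

theorem G_finite (l : ℕ → ℕ) (i e : ℕ) : (G l i e : Set (ℕ → F)).Finite :=
  (supp_finite e).subset fun s hs p hp => hs.1 p (Or.inr hp)

/-- restrict to positions `≥ i` -/
def res (i : ℕ) (s : ℕ → F) : ℕ → F := fun p => if p < i then 0 else s p

theorem res_mem {l : ℕ → ℕ} {i e j : ℕ} {s : ℕ → F} (hs0 : ∀ p, e ≤ p → s p = 0)
    (hs : ∀ v m, i ≤ v → v + 2*m + l (v+m) ≤ e → ¬ Bad (l (v+m)) s v m) (hij : i ≤ j) :
    res j s ∈ G l j e := by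
  refine ⟨?_, ?_⟩
  · rintro p (hp | hp)
    · simp [res, hp]
    · unfold res
      split_ifs
      · rfl
      · exact hs0 p hp
  · intro v m hv hvm hb
    refine hs v m (by omega) hvm (Bad_congr (fun p hp => ?_) hb)
    unfold res
    rw [if_neg (by omega)]

/-- the bad candidates at `(i,m)` -/
def BB (l : ℕ → ℕ) (i e m : ℕ) : Set (ℕ → F) :=
  {s | (∀ p, p < i ∨ e ≤ p → s p = 0) ∧
    (∀ v m, i + 1 ≤ v → v + 2*m + l (v+m) ≤ e → ¬ Bad (l (v+m)) s v m) ∧ 
    i + 2*m + l (i+m) ≤ e ∧ Bad (l (i+m)) s i m}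

theorem BB_card {l : ℕ → ℕ} (hl : ∀ n, 1 ≤ l n) (i e m : ℕ) :
    (BB l i e m : Set (ℕ → F)).ncard ≤ if i + 2*m + l (i+m) ≤ e then (G l (i + l (i+m)) e : Set (ℕ → F)).ncard else 0 := by
  split_ifs with h
  · apply Set.ncard_le_ncard_of_injOn (res (i + l (i+m))) _ _ (G_finite _ _ _)
    · intro s hs
      exact res_mem (i := i+1) (fun p hp => hs.1 p (Or.inr hp)) hs.2.1 (by have := hl (i+m); omega)
    · intro s hs s' hs' hss
      have h1 : ∀ p, i + l (i+m) ≤ p → s p = s' p := by
        intro p hp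
        have := congrFun hss p
        unfold res at this
        rwa [if_neg (by omega), if_neg (by omega)] at this
      have h2 := unique_ext hs.2.2.2 hs'.2.2.2 (fun p hp _ => h1 p hp)
      funext p
      rcases Nat.lt_or_ge p i with hp | hp
      · rw [hs.1 p (Or.inl hp), hs'.1 p (Or.inl hp)]
      · rcases Nat.lt_or_ge p (i + l (i+m)) with hp2 | hp2
        · exact h2 p hp (by omega)
        · exact h1 p hp2
  · have : (BB l i e m : Set (ℕ → F)) = ∅ := by
      ext s
      simp only [Set.mem_empty_iff_false, iff_false]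
      intro hs
      exact h hs.2.2.1
    rw [this, Set.ncard_empty]

theorem count_step {l : ℕ → ℕ} (hl : ∀ n, 1 ≤ l n) {i e : ℕ} (hie : i < e) :
    Fintype.card F * (G l (i+1) e : Set (ℕ → F)).ncard ≤ (G l i e : Set (ℕ → F)).ncard +
      ∑ m ∈ range e, if i + 2*m + l (i+m) ≤ e then (G l (i + l (i+m)) e : Set (ℕ → F)).ncard else 0 := by
  classical
  -- candidates
  set Φ : F × (ℕ → F) → (ℕ → F) := fun x => Function.update x.2 i x.1 with hΦ
  set D : Set (F × (ℕ → F)) := Set.univ ×ˢ (G l (i+1) e) with hD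
  have hinj : Set.InjOn Φ D := by
    rintro ⟨c, s⟩ hs ⟨c', s'⟩ hs' h
    have h1 : c = c' := by
      have := congrFun h i
      simpa [hΦ] using this
    have h2 : s = s' := by
      funext p
      rcases eq_or_ne p i with rfl | hp
      · have a1 : s p = 0 := hs.2.1 p (Or.inl (by omega))
        have a2 : s' p = 0 := hs'.2.1 p (Or.inl (by omega))
        rw [a1, a2]
      · have := congrFun h p
        simpa [hΦ, hp] using this
    rw [h1, h2]
  have hcard : D.ncard = Fintype.card F * (G l (i+1) e : Set (ℕ → F)).ncard := by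
    rw [hD, Set.ncard_prod, Set.ncard_univ, Nat.card_eq_fintype_card]
  rw [← hcard, ← hinj.ncard_image]
  have hsub : Φ '' D ⊆ G l i e ∪ ⋃ m ∈ range e, BB l i e m := by
    rintro _ ⟨⟨c, s⟩, hs, rfl⟩
    have h0 : ∀ p, p < i ∨ e ≤ p → Φ (c, s) p = 0 := by
      intro p hp
      have hpi : p ≠ i := by rcases hp with hp | hp <;> omega
      simp only [hΦ, Function.update_of_ne hpi]
      exact hs.2.1 p (by rcases hp with hp | hp <;> omega)
    have hgt : ∀ v m, i + 1 ≤ v → v + 2*m + l (v+m) ≤ e → ¬ Bad (l (v+m)) (Φ (c, s)) v m := by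
      intro v m hv hvm hb
      refine hs.2.2 v m hv hvm (Bad_congr (fun p hp => ?_) hb)
      have hpi : p ≠ i := by omega
      simp only [hΦ, Function.update_of_ne hpi]
    by_cases hex : ∃ m, i + 2*m + l (i+m) ≤ e ∧ Bad (l (i+m)) (Φ (c, s)) i m
    · right
      obtain ⟨m, hm1, hm2⟩ := hex
      simp only [Set.mem_iUnion, Finset.mem_range]
      exact ⟨m, by have := hl (i+m); omega, h0, hgt, hm1, hm2⟩
    · left
      push Not at hex
      refine ⟨h0, fun v m hv hvm => ?_⟩
      rcases Nat.eq_or_lt_of_le hv with rfl | hv'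
      · exact hex m hvm
      · exact hgt v m hv' hvm
  have hfinB : ∀ m, (BB l i e m : Set (ℕ → F)).Finite := fun m =>
    (supp_finite e).subset fun s hs p hp => hs.1 p (Or.inr hp)
  have hfinU : (⋃ m ∈ range e, (BB l i e m : Set (ℕ → F))).Finite :=
    Set.Finite.biUnion (Finset.finite_toSet _) (fun m _ => hfinB m)
  refine (Set.ncard_le_ncard hsub ((G_finite _ _ _).union hfinU)).trans ?_
  refine (Set.ncard_union_le _ _).trans ?_
  gcongr
  refine le_trans ?_ (Finset.sum_le_sum fun m _ => BB_card hl i e m)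
  have : ∀ t : Finset ℕ, (⋃ m ∈ t, (BB l i e m : Set (ℕ → F))).ncard ≤ ∑ m ∈ t, (BB l i e m : Set (ℕ → F)).ncard := by
    intro t
    induction t using Finset.induction_on with
    | empty => simp
    | insert a t ha ih =>
      rw [Finset.set_biUnion_insert, Finset.sum_insert ha]
      exact (Set.ncard_union_le _ _).trans (by gcongr)
  exact this _

theorem G_self {l : ℕ → ℕ} (hl : ∀ n, 1 ≤ l n) (e : ℕ) : (G l e e : Set (ℕ → F)).ncard = 1 := by
  rw [Set.ncard_eq_one]
  refine ⟨fun _ => 0, ?_⟩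
  ext s
  rw [Set.mem_singleton_iff]
  constructor
  · intro hs
    funext p
    exact hs.1 p (by omega)
  · rintro rfl
    refine ⟨fun _ _ => rfl, fun v m hv hvm => ?_⟩
    have := hl (v+m)
    omega

/-- main growth estimate -/
theorem growth {l : ℕ → ℕ} (hl : ∀ n, 1 ≤ l n) {β : ℝ} (hβ : 1 ≤ β)
    (hsum : ∀ i N, ∑ m ∈ range N, (β ^ (l (i+m) - 1))⁻¹ ≤ (Fintype.card F : ℝ) - β) (e : ℕ) :
    ∀ k i, i + k = e → 1 ≤ k → β * ((G l (i+1) e : Set (ℕ → F)).ncard : ℝ) ≤ ((G l i e : Set (ℕ → F)).ncard : ℝ) := by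
  intro k
  induction k using Nat.strong_induction_on with
  | _ k ih =>
    intro i hik hk
    have hβ0 : 0 < β := by linarith
    set g : ℕ → ℝ := fun i => ((G l i e : Set (ℕ → F)).ncard : ℝ) with hg
    -- iterate
    have hiter : ∀ n, i + 1 + n ≤ e → β ^ n * g (i+1+n) ≤ g (i+1) := by
      intro n
      induction n with
      | zero => intro _; simp
      | succ n ihn =>
        intro hn
        have h1 := ihn (by omega)
        have h2 := ih (e - (i+1+n)) (by omega) (i+1+n) (by omega) (by omega)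
        calc β ^ (n+1) * g (i+1+(n+1)) = β ^ n * (β * g (i+1+n+1)) := by
              rw [pow_succ]
              ring_nf
          _ ≤ β ^ n * g (i+1+n) := by
              apply mul_le_mul_of_nonneg_left h2 (by positivity)
          _ ≤ g (i+1) := h1
    have hc := count_step (F := F) hl (show i < e by omega)
    have hc' : (Fintype.card F : ℝ) * g (i+1) ≤ g i + ∑ m ∈ range e,
        (if i + 2*m + l (i+m) ≤ e then g (i + l (i+m)) else 0) := by
      have : ((Fintype.card F * (G l (i+1) e : Set (ℕ → F)).ncard : ℕ) : ℝ) ≤ (((G l i e : Set (ℕ → F)).ncard +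
        ∑ m ∈ range e, if i + 2*m + l (i+m) ≤ e then (G l (i + l (i+m)) e : Set (ℕ → F)).ncard else 0 : ℕ) : ℝ) := by
        exact_mod_cast hc
      push_cast at this
      exact this
    have hbd : ∑ m ∈ range e, (if i + 2*m + l (i+m) ≤ e then g (i + l (i+m)) else 0) ≤
        ((Fintype.card F : ℝ) - β) * g (i+1) := by
      calc ∑ m ∈ range e, (if i + 2*m + l (i+m) ≤ e then g (i + l (i+m)) else 0)
          ≤ ∑ m ∈ range e, (β ^ (l (i+m) - 1))⁻¹ * g (i+1) := by
            apply Finset.sum_le_sum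
            intro m _
            have hg0 : 0 ≤ g (i+1) := Nat.cast_nonneg _
            split_ifs with hcond
            · have h1 := hl (i+m)
              have h2 := hiter (l (i+m) - 1) (by omega)
              have e1 : i + 1 + (l (i+m) - 1) = i + l (i+m) := by omega
              rw [e1] at h2
              rw [inv_mul_eq_div, le_div_iff₀ (by positivity)]
              linarith
            · positivity
        _ = (∑ m ∈ range e, (β ^ (l (i+m) - 1))⁻¹) * g (i+1) := by rw [Finset.sum_mul]
        _ ≤ _ := by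
            apply mul_le_mul_of_nonneg_right (hsum i e) (Nat.cast_nonneg _)
    show β * g (i+1) ≤ g i
    linarith

theorem growth_pow {l : ℕ → ℕ} (hl : ∀ n, 1 ≤ l n) {β : ℝ} (hβ : 1 ≤ β)
    (hsum : ∀ i N, ∑ m ∈ range N, (β ^ (l (i+m) - 1))⁻¹ ≤ (Fintype.card F : ℝ) - β) (e J : ℕ) (hJ : J ≤ e) :
    β ^ J * ((G l J e : Set (ℕ → F)).ncard : ℝ) ≤ ((G l 0 e : Set (ℕ → F)).ncard : ℝ) := by
  induction J with
  | zero => simp
  | succ J ih =>
    have h1 := ih (by omega)
    have h2 := growth (F := F) hl hβ hsum e (e - J) J (by omega) (by omega)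
    have hβ0 : 0 < β := by linarith
    calc β ^ (J+1) * ((G l (J+1) e : Set (ℕ → F)).ncard : ℝ)
        = β ^ J * (β * ((G l (J+1) e : Set (ℕ → F)).ncard : ℝ)) := by rw [pow_succ]; ring
      _ ≤ β ^ J * ((G l J e : Set (ℕ → F)).ncard : ℝ) := mul_le_mul_of_nonneg_left h2 (by positivity)
      _ ≤ _ := h1

end Pool.Agent.R331.TL
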