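import Pool.Agent.R331.TL.Comb

set_option autoImplicit false

namespace Pool.Agent.R331.TL

open Finset

variable {F : Type} [Field F] [Fintype F]

/-- infinite admissible words -/
def E (F : Type) [Field F] (l : ℕ → ℕ) : Set (ℕ → F) :=
  {s | ∀ v m, ¬ Bad (l (v+m)) s v m}

def cyl (x : ℕ → F) (J : ℕ) : Set (ℕ → F) := {s | ∀ p, p < J → s p = x p}

theorem isOpen_bad [TopologicalSpace F] [DiscreteTopology F] (l v m : ℕ) :
    IsOpen {s : ℕ → F | Bad l s v m} := by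
  have e : {s : ℕ → F | Bad l s v m} = ⋃ a : {a : ℕ → F // a 0 ≠ 0},
      ⋂ j ∈ range (m+l), (fun s : ℕ → F => ∑ i ∈ range (m+1), a.1 i * s (v + j + i)) ⁻¹' {0} := by
    ext s
    simp only [Set.mem_iUnion, Set.mem_iInter, Finset.mem_range]
    constructor
    · rintro ⟨a, ha, h⟩
      exact ⟨⟨a, ha⟩, fun j hj => h j hj⟩
    · rintro ⟨⟨a, ha⟩, h⟩
      exact ⟨a, ha, fun j hj => h j hj⟩
  rw [e]
  refine isOpen_iUnion fun a => isOpen_biInter_finset fun j _ => ?_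
  apply (isOpen_discrete _).preimage
  have : ContinuousAdd F := ⟨continuous_of_discreteTopology⟩
  have : ContinuousMul F := ⟨continuous_of_discreteTopology⟩
  exact continuous_finsetSum _ fun i _ => continuous_const.mul (continuous_apply _)

theorem isOpen_cyl [TopologicalSpace F] [DiscreteTopology F] (x : ℕ → F) (J : ℕ) : IsOpen (cyl x J) := by
  have e : cyl x J = ⋂ p ∈ range J, (fun s : ℕ → F => s p) ⁻¹' {x p} := by
    ext s
    simp only [Set.mem_iInter, Finset.mem_range]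
    rfl
  rw [e]
  refine isOpen_biInter_finset fun p _ => ?_
  exact (isOpen_discrete _).preimage (continuous_apply p)

/-- compactness -/
theorem finite_cover (l : ℕ → ℕ) (x : ℕ → ℕ → F) (J : ℕ → ℕ) (h : E F l ⊆ ⋃ n, cyl (x n) (J n)) :
    ∃ S : Finset ℕ, ∃ e₀ : ℕ, ∀ e, e₀ ≤ e → G l 0 e ⊆ ⋃ n ∈ S, cyl (x n) (J n) := by
  classical
  letI : TopologicalSpace F := ⊥
  haveI : DiscreteTopology F := ⟨rfl⟩
  set O : ℕ ⊕ (ℕ × ℕ) → Set (ℕ → F) := Sum.elim (fun n => cyl (x n) (J n))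
    (fun vm => {s : ℕ → F | Bad (l (vm.1 + vm.2)) s vm.1 vm.2}) with hO
  have hopen : ∀ i, IsOpen (O i) := by
    rintro (n | vm)
    · exact isOpen_cyl _ _
    · exact isOpen_bad _ _ _
  have hcov : (Set.univ : Set (ℕ → F)) ⊆ ⋃ i, O i := by
    intro s _
    by_cases hs : s ∈ E F l
    · obtain ⟨n, hn⟩ := Set.mem_iUnion.mp (h hs)
      exact Set.mem_iUnion.mpr ⟨Sum.inl n, hn⟩
    · unfold E at hs
      rw [Set.mem_setOf_eq] at hs
      push Not at hs
      obtain ⟨v, m, hb⟩ := hs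
      exact Set.mem_iUnion.mpr ⟨Sum.inr (v, m), hb⟩
  obtain ⟨T, hT⟩ := isCompact_univ.elim_finite_subcover O hopen hcov
  refine ⟨T.preimage Sum.inl Sum.inl_injective.injOn,
    (T.preimage Sum.inr Sum.inr_injective.injOn).sup (fun vm => vm.1 + 2*vm.2 + l (vm.1 + vm.2)), fun e he s hs => ?_⟩
  obtain ⟨i, hi1, hi2⟩ := Set.mem_iUnion₂.mp (hT (Set.mem_univ s))
  rcases i with n | vm
  · exact Set.mem_iUnion₂.mpr ⟨n, by simpa using hi1, hi2⟩
  · exfalso
    have h1 : vm.1 + 2*vm.2 + l (vm.1 + vm.2) ≤ e := by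
      refine le_trans ?_ he
      exact Finset.le_sup (f := fun vm : ℕ × ℕ => vm.1 + 2*vm.2 + l (vm.1 + vm.2)) (by simpa using hi1)
    exact hs.2 vm.1 vm.2 (Nat.zero_le _) h1 hi2

/-- the mass inequality -/
theorem cover_sum {l : ℕ → ℕ} (hl : ∀ n, 1 ≤ l n) {β : ℝ} (hβ : 1 ≤ β)
    (hsum : ∀ i N, ∑ m ∈ range N, (β ^ (l (i+m) - 1))⁻¹ ≤ (Fintype.card F : ℝ) - β)
    (x : ℕ → ℕ → F) (J : ℕ → ℕ) (h : E F l ⊆ ⋃ n, cyl (x n) (J n)) :
    ∃ S : Finset ℕ, 1 ≤ ∑ n ∈ S, (β ^ (J n))⁻¹ := by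
  classical
  obtain ⟨S, e₀, hS⟩ := finite_cover l x J h
  refine ⟨S, ?_⟩
  set e := max e₀ (S.sup J) with he
  have hJe : ∀ n ∈ S, J n ≤ e := fun n hn => (Finset.le_sup (f := J) hn).trans (le_max_right _ _)
  have hsub := hS e (le_max_left _ _)
  set g : ℕ → ℝ := fun i => ((G l i e : Set (ℕ → F)).ncard : ℝ) with hg
  have hβ0 : 0 < β := by linarith
  have hg0 : 0 < g 0 := by
    have h1 := growth_pow (F := F) hl hβ hsum e e le_rfl
    rw [G_self hl] at h1
    have : 0 < β ^ e := by positivity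
    show 0 < ((G l 0 e : Set (ℕ → F)).ncard : ℝ)
    push_cast at h1
    linarith
  -- counting
  have hcount : ∀ n ∈ S, ((G l 0 e ∩ cyl (x n) (J n) : Set (ℕ → F)).ncard : ℝ) ≤ (β ^ (J n))⁻¹ * g 0 := by
    intro n hn
    have h1 : (G l 0 e ∩ cyl (x n) (J n) : Set (ℕ → F)).ncard ≤ (G l (J n) e : Set (ℕ → F)).ncard := by
      apply Set.ncard_le_ncard_of_injOn (res (J n)) _ _ (G_finite _ _ _)
      · intro s hs
        exact res_mem (i := 0) (fun p hp => hs.1.1 p (Or.inr hp)) hs.1.2 (Nat.zero_le _)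
      · intro s hs s' hs' hss
        funext p
        rcases Nat.lt_or_ge p (J n) with hp | hp
        · rw [hs.2 p hp, hs'.2 p hp]
        · have := congrFun hss p
          unfold res at this
          rwa [if_neg (by omega), if_neg (by omega)] at this
    have h2 := growth_pow (F := F) hl hβ hsum e (J n) (hJe n hn)
    rw [inv_mul_eq_div, le_div_iff₀ (by positivity)]
    calc ((G l 0 e ∩ cyl (x n) (J n) : Set (ℕ → F)).ncard : ℝ) * β ^ J n ≤
          ((G l (J n) e : Set (ℕ → F)).ncard : ℝ) * β ^ J n := by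
          apply mul_le_mul_of_nonneg_right _ (by positivity)
          exact_mod_cast h1
      _ ≤ g 0 := by
          rw [mul_comm]
          exact h2
  have hall : g 0 ≤ ∑ n ∈ S, ((G l 0 e ∩ cyl (x n) (J n) : Set (ℕ → F)).ncard : ℝ) := by
    have h1 : (G l 0 e : Set (ℕ → F)) ⊆ ⋃ n ∈ S, (G l 0 e ∩ cyl (x n) (J n)) := by
      intro s hs
      obtain ⟨n, hn, hsn⟩ := Set.mem_iUnion₂.mp (hsub hs)
      exact Set.mem_iUnion₂.mpr ⟨n, hn, hs, hsn⟩
    have hfin : (⋃ n ∈ S, (G l 0 e ∩ cyl (x n) (J n) : Set (ℕ → F))).Finite :=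
      Set.Finite.biUnion (Finset.finite_toSet _) (fun n _ => (G_finite _ _ _).inter_of_left _)
    have h2 := Set.ncard_le_ncard h1 hfin
    have h3 : ∀ t : Finset ℕ, (⋃ n ∈ t, (G l 0 e ∩ cyl (x n) (J n) : Set (ℕ → F))).ncard ≤
        ∑ n ∈ t, (G l 0 e ∩ cyl (x n) (J n) : Set (ℕ → F)).ncard := by
      intro t
      induction t using Finset.induction_on with
      | empty => simp
      | insert a t ha ih =>
        rw [Finset.set_biUnion_insert, Finset.sum_insert ha]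
        exact (Set.ncard_union_le _ _).trans (by gcongr)
    have h4 := h2.trans (h3 S)
    show ((G l 0 e : Set (ℕ → F)).ncard : ℝ) ≤ _
    exact_mod_cast h4
  have h5 : g 0 ≤ (∑ n ∈ S, (β ^ (J n))⁻¹) * g 0 := by
    rw [Finset.sum_mul]
    exact hall.trans (Finset.sum_le_sum hcount)
  by_contra hcon
  push Not at hcon
  nlinarith

end Pool.Agent.R331.TL
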