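import Mathlib

set_option autoImplicit false

/-! The unit ball of `F((1/t))`, its metric, and the sets `M(f)`. -/

namespace Pool.Agent.R331.TL

open Polynomial

/-- The elements `Θ = ∑_{i ≥ 0} s_i t^{-(i+1)}` of the unit ball of `F((1/t))`. -/
@[ext] structure Ball (F : Type) where
  /-- `dig i` is the coefficient of `t^{-(i+1)}` -/
  dig : ℕ → F

open Classical in
/-- The absolute value `q^{-(j+1)}` of `∑_j c_j t^{-(j+1)}`, where `j` is the least index with
`c_j ≠ 0` and `q` is the cardinality of `F` (and `0` when all the `c_j` vanish). -/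
noncomputable def absSeq {F : Type} [Field F] [Fintype F] (c : ℕ → F) : ℝ :=
  if h : ∃ j, c j ≠ 0 then ((Fintype.card F : ℝ) ^ (Nat.find h + 1))⁻¹ else 0

/-- The coefficients of the fractional part of `N Θ`: the coefficient of `t^{-(j+1)}` in `N Θ`. -/
def frac {F : Type} [Field F] (N : F[X]) (Θ : Ball F) : ℕ → F :=
  fun j => ∑ i ∈ Finset.range (N.natDegree + 1), N.coeff i * Θ.dig (i + j)

/-- The set `M(f)` of counterexamples with growth function `f`; `f k` is the value at `q^k`.
For a nonzero polynomial `N`, `|N| = q^(deg N)` and `|N|_t = q^{-v}` with `t^v` the largest power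
of `t` dividing `N`. -/
def M (F : Type) [Field F] [Fintype F] (f : ℕ → ℝ) : Set (Ball F) :=
  {Θ | ∃ c : ℝ, 0 < c ∧ ∀ N : F[X], N ≠ 0 →
    c ≤ f N.natDegree * (Fintype.card F : ℝ) ^ N.natDegree *
      ((Fintype.card F : ℝ) ^ N.natTrailingDegree)⁻¹ * absSeq (frac N Θ)}

/-- The growth function `f_λ(q^k) = k^{1+λ}` for `k ≥ 1`, and `f_λ(1) = 1`. -/
noncomputable def fl (lam : ℝ) (k : ℕ) : ℝ := if k = 0 then 1 else (k : ℝ) ^ (1 + lam)

section metric

variable {F : Type} [Field F] [Fintype F]

theorem one_lt_q : (1:ℝ) < (Fintype.card F : ℝ) := by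
  exact_mod_cast Fintype.one_lt_card

theorem absSeq_nonneg (c : ℕ → F) : 0 ≤ absSeq c := by
  unfold absSeq
  split_ifs <;> positivity

theorem absSeq_zero {c : ℕ → F} (h : ∀ j, c j = 0) : absSeq c = 0 := by
  unfold absSeq
  rw [dif_neg]
  push Not
  exact h

theorem le_absSeq {c : ℕ → F} {j : ℕ} (h : c j ≠ 0) : ((Fintype.card F : ℝ) ^ (j + 1))⁻¹ ≤ absSeq c := by
  classical
  unfold absSeq
  rw [dif_pos ⟨j, h⟩]
  have h1 := Nat.find_min' (⟨j, h⟩ : ∃ j, c j ≠ 0) h
  have h2 := one_lt_q (F := F)
  apply inv_anti₀ (by positivity)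
  exact pow_le_pow_right₀ h2.le (by omega)

theorem absSeq_le {c : ℕ → F} {J : ℕ} (h : ∀ j, j < J → c j = 0) :
    absSeq c ≤ ((Fintype.card F : ℝ) ^ (J + 1))⁻¹ := by
  classical
  have h2 := one_lt_q (F := F)
  unfold absSeq
  split_ifs with hex
  · apply inv_anti₀ (by positivity)
    apply pow_le_pow_right₀ h2.le
    have : J ≤ Nat.find hex := by
      by_contra hcon
      push Not at hcon
      exact Nat.find_spec hex (h _ hcon)
    omega
  · positivity

theorem absSeq_congr {c c' : ℕ → F} (h : ∀ j, c j = 0 ↔ c' j = 0) : absSeq c = absSeq c' := by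
  by_cases hex : ∃ j, c j ≠ 0
  · classical
    apply le_antisymm
    · have h1 : ∃ j, c' j ≠ 0 := by
        obtain ⟨j, hj⟩ := hex
        exact ⟨j, fun h0 => hj ((h j).mpr h0)⟩
      have h2 : absSeq c = ((Fintype.card F : ℝ) ^ (Nat.find hex + 1))⁻¹ := by
        unfold absSeq
        rw [dif_pos hex]
      rw [h2]
      exact le_absSeq fun h0 => Nat.find_spec hex ((h _).mpr h0)
    · have h1 : ∃ j, c' j ≠ 0 := by
        obtain ⟨j, hj⟩ := hex
        exact ⟨j, fun h0 => hj ((h j).mpr h0)⟩
      have h2 : absSeq c' = ((Fintype.card F : ℝ) ^ (Nat.find h1 + 1))⁻¹ := by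
        unfold absSeq
        rw [dif_pos h1]
      rw [h2]
      exact le_absSeq fun h0 => Nat.find_spec h1 ((h _).mp h0)
  · push Not at hex
    rw [absSeq_zero hex, absSeq_zero (fun j => (h j).mp (hex j))]

theorem absSeq_add (a b : ℕ → F) : absSeq (fun j => a j + b j) ≤ absSeq a + absSeq b := by
  classical
  by_cases hex : ∃ j, a j + b j ≠ 0
  · have h2 : absSeq (fun j => a j + b j) = ((Fintype.card F : ℝ) ^ (Nat.find hex + 1))⁻¹ := by
      unfold absSeq
      rw [dif_pos hex]
    rw [h2]
    have h3 := Nat.find_spec hex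
    by_cases ha : a (Nat.find hex) = 0
    · have hb : b (Nat.find hex) ≠ 0 := by
        intro hb
        exact h3 (by rw [ha, hb, add_zero])
      have := le_absSeq hb
      have := absSeq_nonneg a
      linarith
    · have := le_absSeq ha
      have := absSeq_nonneg b
      linarith
  · push Not at hex
    rw [absSeq_zero hex]
    have := absSeq_nonneg a
    have := absSeq_nonneg b
    linarith

/-- The metric `|Θ - Φ|` on the unit ball. -/
noncomputable instance : MetricSpace (Ball F) where
  dist Θ Φ := absSeq (fun i => Θ.dig i - Φ.dig i)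
  dist_self Θ := absSeq_zero (fun j => sub_self _)
  dist_comm Θ Φ := absSeq_congr (fun j => by rw [sub_eq_zero, sub_eq_zero, eq_comm])
  dist_triangle Θ Φ Ω := by
    have := absSeq_add (fun i => Θ.dig i - Φ.dig i) (fun i => Φ.dig i - Ω.dig i)
    simpa using this
  eq_of_dist_eq_zero := by
    intro Θ Φ h
    ext i
    by_contra hne
    have h2 := le_absSeq (c := fun i => Θ.dig i - Φ.dig i) (j := i) (sub_ne_zero.mpr hne)
    have h3 : 0 < ((Fintype.card F : ℝ) ^ (i + 1))⁻¹ := by
      have := one_lt_q (F := F)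
      positivity
    have h4 : absSeq (fun i => Θ.dig i - Φ.dig i) = 0 := h
    linarith

theorem dist_eq (Θ Φ : Ball F) : dist Θ Φ = absSeq (fun i => Θ.dig i - Φ.dig i) := rfl

end metric

end Pool.Agent.R331.TL
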