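import Pool.Agent.R331.TL.Comp
import Pool.Agent.R331.TL.Defs

set_option autoImplicit false

namespace Pool.Agent.R331.TL

open Finset MeasureTheory Polynomial
open scoped ENNReal NNReal

variable {F : Type} [Field F] [Fintype F]

/-- set-wise cylinder hull -/
theorem hull (t : Set (Ball F)) (ht : ¬ t.Subsingleton) : ∃ (x : ℕ → F) (J : ℕ),
    (∀ z ∈ t, z.dig ∈ cyl x J) ∧ ENNReal.ofReal (((Fintype.card F : ℝ) ^ (J + 1))⁻¹) ≤ Metric.ediam t := by
  classical
  have hex : ∃ J, ∃ x ∈ t, ∃ y ∈ t, x.dig J ≠ y.dig J := by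
    rw [Set.not_subsingleton_iff] at ht
    obtain ⟨x, hx, y, hy, hxy⟩ := ht
    have : ∃ J, x.dig J ≠ y.dig J := by
      by_contra hcon
      push Not at hcon
      exact hxy (Ball.ext (funext hcon))
    obtain ⟨J, hJ⟩ := this
    exact ⟨J, x, hx, y, hy, hJ⟩
  obtain ⟨x, hx, y, hy, hxy⟩ := Nat.find_spec hex
  refine ⟨x.dig, Nat.find hex, ?_, ?_⟩
  · intro z hz p hp
    by_contra hne
    exact Nat.find_min hex hp ⟨z, hz, x, hx, hne⟩
  · refine le_trans ?_ (Metric.edist_le_ediam_of_mem hx hy)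
    rw [edist_dist, dist_eq]
    apply ENNReal.ofReal_le_ofReal
    exact le_absSeq (c := fun i => x.dig i - y.dig i) (sub_ne_zero.mpr hxy)

/-- the lower bound for Hausdorff measure -/
theorem hausdorff_lower [MeasurableSpace (Ball F)] [BorelSpace (Ball F)]
    {l : ℕ → ℕ} (hl : ∀ n, 1 ≤ l n) {s : ℝ} (hs : 0 < s)
    (hsum : ∀ i N, ∑ m ∈ range N, ((((Fintype.card F : ℝ) ^ s) ^ (l (i+m) - 1))⁻¹) ≤
      (Fintype.card F : ℝ) - (Fintype.card F : ℝ) ^ s) :
    Measure.hausdorffMeasure s {Θ : Ball F | Θ.dig ∈ E F l} ≠ 0 := by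
  have hq := one_lt_q (F := F)
  set β : ℝ := (Fintype.card F : ℝ) ^ s with hβ
  have hβ1 : 1 < β := Real.one_lt_rpow hq hs
  have hβ0 : 0 < β := by linarith
  have key : ENNReal.ofReal (β⁻¹ * (1/2)) ≤ Measure.hausdorffMeasure s {Θ : Ball F | Θ.dig ∈ E F l} := by
    rw [Measure.hausdorffMeasure_apply]
    refine le_iSup₂_of_le 1 one_pos ?_
    refine le_iInf fun t => le_iInf fun hcov => le_iInf fun _ => ?_
    -- choose cylinders
    have hch : ∀ n, ∃ (x : ℕ → F) (J : ℕ), (∀ z ∈ t n, z.dig ∈ cyl x J) ∧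
        ENNReal.ofReal ((β ^ J)⁻¹) ≤ ENNReal.ofReal β * (⨆ _ : (t n).Nonempty, Metric.ediam (t n) ^ s) +
          ENNReal.ofReal ((1/2)^(n+2)) := by
      intro n
      by_cases hsub : (t n).Subsingleton
      · -- tiny cylinder
        obtain ⟨J, hJ⟩ := pow_unbounded_of_one_lt ((2:ℝ)^(n+2)) hβ1
        have hJ' : (β ^ J)⁻¹ ≤ (1/2:ℝ)^(n+2) := by
          rw [one_div, inv_pow]
          exact inv_anti₀ (by positivity) hJ.le
        by_cases hne : (t n).Nonempty
        · obtain ⟨z, hz⟩ := hne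
          refine ⟨z.dig, J, ?_, ?_⟩
          · intro y hy p _
            rw [hsub hy hz]
          · exact (ENNReal.ofReal_le_ofReal hJ').trans le_add_self
        · refine ⟨fun _ => 0, J, ?_, ?_⟩
          · intro y hy
            exact absurd ⟨y, hy⟩ hne
          · exact (ENNReal.ofReal_le_ofReal hJ').trans le_add_self
      · obtain ⟨x, J, h1, h2⟩ := hull (t n) hsub
        refine ⟨x, J, h1, ?_⟩
        have hne : (t n).Nonempty := (Set.not_subsingleton_iff.mp hsub).nonempty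
        have h3 : ENNReal.ofReal ((β ^ J)⁻¹) ≤ ENNReal.ofReal β * (⨆ _ : (t n).Nonempty, Metric.ediam (t n) ^ s) := by
          rw [iSup_pos hne]
          have h4 : ENNReal.ofReal (((Fintype.card F : ℝ) ^ (J + 1))⁻¹) ^ s ≤ Metric.ediam (t n) ^ s :=
            ENNReal.rpow_le_rpow h2 hs.le
          have h5 : ENNReal.ofReal (((Fintype.card F : ℝ) ^ (J + 1))⁻¹) ^ s = ENNReal.ofReal ((β ^ (J+1))⁻¹) := by
            rw [ENNReal.ofReal_rpow_of_nonneg (by positivity) hs.le]
            congr 1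
            rw [Real.inv_rpow (by positivity), hβ, ← Real.rpow_natCast, ← Real.rpow_natCast,
              ← Real.rpow_mul (by positivity), ← Real.rpow_mul (by positivity), mul_comm]
          rw [h5] at h4
          calc ENNReal.ofReal ((β ^ J)⁻¹) = ENNReal.ofReal β * ENNReal.ofReal ((β ^ (J+1))⁻¹) := by
                rw [← ENNReal.ofReal_mul hβ0.le]
                congr 1
                rw [pow_succ]
                field_simp
            _ ≤ _ := by gcongr
        exact h3.trans le_self_add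
    choose x J h1 h2 using hch
    have hE : E F l ⊆ ⋃ n, cyl (x n) (J n) := by
      intro y hy
      have : (⟨y⟩ : Ball F) ∈ {Θ : Ball F | Θ.dig ∈ E F l} := hy
      obtain ⟨n, hn⟩ := Set.mem_iUnion.mp (hcov this)
      exact Set.mem_iUnion.mpr ⟨n, h1 n _ hn⟩
    obtain ⟨S, hS⟩ := cover_sum hl hβ1.le hsum x J hE
    set D : ℝ≥0∞ := ∑' n, ⨆ _ : (t n).Nonempty, Metric.ediam (t n) ^ s with hD
    have h6 : (1:ℝ≥0∞) ≤ ENNReal.ofReal β * D + ENNReal.ofReal (1/2) := by
      calc (1:ℝ≥0∞) = ENNReal.ofReal 1 := ENNReal.ofReal_one.symm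
        _ ≤ ENNReal.ofReal (∑ n ∈ S, (β ^ (J n))⁻¹) := ENNReal.ofReal_le_ofReal hS
        _ = ∑ n ∈ S, ENNReal.ofReal ((β ^ (J n))⁻¹) := ENNReal.ofReal_sum_of_nonneg (fun n _ => by positivity)
        _ ≤ ∑' n, ENNReal.ofReal ((β ^ (J n))⁻¹) := ENNReal.sum_le_tsum S
        _ ≤ ∑' n, (ENNReal.ofReal β * (⨆ _ : (t n).Nonempty, Metric.ediam (t n) ^ s) +
              ENNReal.ofReal ((1/2)^(n+2))) := ENNReal.tsum_le_tsum h2
        _ = ENNReal.ofReal β * D + ∑' n : ℕ, ENNReal.ofReal ((1/2)^(n+2)) := by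
            rw [ENNReal.tsum_add, ENNReal.tsum_mul_left]
        _ = _ := by
            congr 1
            have hs2 : Summable (fun n : ℕ => ((1:ℝ)/2)^(n+2)) :=
              (summable_nat_add_iff 2).mpr summable_geometric_two
            rw [← ENNReal.ofReal_tsum_of_nonneg (fun n => by positivity) hs2]
            congr 1
            have e : ∀ n : ℕ, ((1:ℝ)/2)^(n+2) = (1/4) * ((1:ℝ)/2)^n := by
              intro n
              rw [pow_add]
              ring
            simp_rw [e]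
            rw [tsum_mul_left, tsum_geometric_two]
            norm_num
    have h7 : ENNReal.ofReal (1/2) ≤ ENNReal.ofReal β * D := by
      have h8 : ENNReal.ofReal (1/2) + ENNReal.ofReal (1/2) ≤ ENNReal.ofReal β * D + ENNReal.ofReal (1/2) := by
        rw [← ENNReal.ofReal_add (by norm_num) (by norm_num)]
        norm_num
        norm_num at h6
        exact h6
      exact (ENNReal.add_le_add_iff_right ENNReal.ofReal_ne_top).mp h8
    calc ENNReal.ofReal (β⁻¹ * (1/2)) = ENNReal.ofReal β⁻¹ * ENNReal.ofReal (1/2) :=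
          ENNReal.ofReal_mul (by positivity)
      _ ≤ ENNReal.ofReal β⁻¹ * (ENNReal.ofReal β * D) := by gcongr
      _ = D := by
          rw [← mul_assoc, ← ENNReal.ofReal_mul (by positivity), inv_mul_cancel₀ hβ0.ne',
            ENNReal.ofReal_one, one_mul]
  intro h0
  rw [h0] at key
  have : 0 < ENNReal.ofReal (β⁻¹ * (1/2)) := ENNReal.ofReal_pos.mpr (by positivity)
  exact absurd key (not_le.mpr this)

/-- thresholds -/
noncomputable def ell (q lam : ℝ) (C : ℕ) (n : ℕ) : ℕ := ⌈(1 + lam) * Real.logb q ((n:ℝ) + 1)⌉₊ + C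

theorem ell_sum {q lam s : ℝ} (hq : 1 < q) (hs : 0 < s) (hs1 : s < 1)
    (hsl : 1 < s * (1 + lam)) : ∃ C : ℕ, 1 ≤ C ∧ ∀ i N, ∑ m ∈ range N,
      (((q ^ s) ^ (ell q lam C (i+m) - 1))⁻¹) ≤ q - q ^ s := by
  set β : ℝ := q ^ s with hβ
  have hβ1 : 1 < β := Real.one_lt_rpow hq hs
  have hβ0 : 0 < β := by linarith
  have hβq : β < q := by
    calc β = q ^ s := rfl
      _ < q ^ (1:ℝ) := Real.rpow_lt_rpow_of_exponent_lt hq hs1
      _ = q := Real.rpow_one q
  set p := s * (1 + lam) with hp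
  have hsum : Summable (fun n : ℕ => 1 / ((n:ℝ)+1)^p) := by
    have := (summable_nat_add_iff 1).mpr (Real.summable_one_div_nat_rpow.mpr hsl)
    simpa using this
  set Z := ∑' n : ℕ, 1 / ((n:ℝ)+1)^p with hZ
  have hZ0 : 0 ≤ Z := tsum_nonneg fun n => by positivity
  obtain ⟨D, hD⟩ := pow_unbounded_of_one_lt (Z / (q - β)) hβ1
  refine ⟨D + 1, by omega, fun i N => ?_⟩
  have hterm : ∀ n : ℕ, ((β ^ (ell q lam (D+1) n - 1))⁻¹) ≤ (β ^ D)⁻¹ * (1 / ((n:ℝ)+1)^p) := by
    intro n
    have hn : (0:ℝ) < (n:ℝ) + 1 := by positivity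
    have h1 : ((n:ℝ)+1)^p * β ^ D ≤ β ^ (ell q lam (D+1) n - 1) := by
      have e1 : ell q lam (D+1) n - 1 = ⌈(1 + lam) * Real.logb q ((n:ℝ) + 1)⌉₊ + D := by
        unfold ell
        omega
      rw [e1, pow_add]
      apply mul_le_mul_of_nonneg_right _ (by positivity)
      calc ((n:ℝ)+1)^p = β ^ ((1 + lam) * Real.logb q ((n:ℝ) + 1)) := by
            rw [hβ, ← Real.rpow_mul (by linarith)]
            nth_rewrite 1 [← Real.rpow_logb (by linarith : 0 < q) hq.ne' hn]
            rw [← Real.rpow_mul (by linarith)]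
            congr 1
            rw [hp]
            ring
        _ ≤ β ^ (((⌈(1 + lam) * Real.logb q ((n:ℝ) + 1)⌉₊ : ℕ)) : ℝ) :=
            Real.rpow_le_rpow_of_exponent_le hβ1.le (Nat.le_ceil _)
        _ = _ := Real.rpow_natCast _ _
    calc ((β ^ (ell q lam (D+1) n - 1))⁻¹) ≤ (((n:ℝ)+1)^p * β ^ D)⁻¹ := inv_anti₀ (by positivity) h1
      _ = _ := by
          rw [mul_inv]
          ring
  calc ∑ m ∈ range N, ((β ^ (ell q lam (D+1) (i+m) - 1))⁻¹)
      ≤ ∑ m ∈ range N, (β ^ D)⁻¹ * (1 / (((i+m : ℕ):ℝ)+1)^p) := Finset.sum_le_sum fun m _ => hterm (i+m)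
    _ = (β ^ D)⁻¹ * ∑ m ∈ range N, (1 / (((i+m : ℕ):ℝ)+1)^p) := by rw [Finset.mul_sum]
    _ ≤ (β ^ D)⁻¹ * Z := by
        apply mul_le_mul_of_nonneg_left _ (by positivity)
        have e : ∑ m ∈ range N, (1 / (((i+m : ℕ):ℝ)+1)^p) = ∑ n ∈ (range N).image (fun m => i + m), (1 / ((n:ℝ)+1)^p) := by
          rw [Finset.sum_image]
          intro a _ b _ h
          exact Nat.add_left_cancel h
        rw [e]
        exact hsum.sum_le_tsum _ (fun n _ => by positivity)
    _ ≤ q - β := by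
        rw [inv_mul_eq_div, div_le_iff₀ (by positivity)]
        rw [div_lt_iff₀ (by linarith)] at hD
        nlinarith

theorem E_subset_M {lam : ℝ} (hlam : 0 < lam) (C : ℕ) :
    {Θ : Ball F | Θ.dig ∈ E F (ell (Fintype.card F) lam C)} ⊆ M F (fl lam) := by
  intro Θ hΘ
  have hq := one_lt_q (F := F)
  set q : ℝ := (Fintype.card F : ℝ) with hqdef
  have hq0 : 0 < q := by linarith
  refine ⟨(q ^ (C+1) * 2 ^ (1 + lam))⁻¹, by positivity, fun N hN => ?_⟩
  set v := N.natTrailingDegree with hv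
  set n := N.natDegree with hn
  have hvn : v ≤ n := Polynomial.natTrailingDegree_le_natDegree N
  obtain ⟨m, hm⟩ := Nat.exists_eq_add_of_le hvn
  have hnb := hΘ v m
  rw [← hm] at hnb
  set L := ell q lam C n with hL
  -- find a nonzero coefficient
  have hj : ∃ j, j < m + L ∧ frac N Θ j ≠ 0 := by
    by_contra hcon
    push Not at hcon
    apply hnb
    refine ⟨fun i => N.coeff (v + i), ?_, fun j hj => ?_⟩
    · show N.coeff (v + 0) ≠ 0
      rw [add_zero]
      have := Polynomial.trailingCoeff_nonzero_iff_nonzero.mpr hN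
      exact this
    · rw [← hcon j hj]
      unfold frac
      have e1 : N.natDegree + 1 = v + (m + 1) := by omega
      rw [e1, Finset.sum_range_add (fun i => N.coeff i * Θ.dig (i + j)) v (m+1)]
      rw [Finset.sum_eq_zero (s := range v), zero_add]
      · apply Finset.sum_congr rfl
        intro i _
        have e2 : v + j + i = v + i + j := by ring
        rw [e2]
      · intro i hi
        rw [Finset.mem_range] at hi
        rw [Polynomial.coeff_eq_zero_of_lt_natTrailingDegree hi, zero_mul]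
  obtain ⟨j, hj1, hj2⟩ := hj
  have h1 := le_absSeq hj2
  have h2 : (q ^ (m + L))⁻¹ ≤ absSeq (frac N Θ) := by
    refine le_trans ?_ h1
    apply inv_anti₀ (by positivity)
    exact pow_le_pow_right₀ hq.le (by omega)
  have hf : 0 < fl lam n := by
    unfold fl
    split_ifs with h0
    · norm_num
    · have : 0 < (n:ℝ) := by
        have : 0 < n := Nat.pos_of_ne_zero h0
        exact_mod_cast this
      positivity
  have h3 : q ^ L ≤ q ^ (C+1) * 2 ^ (1 + lam) * fl lam n := by
    have hn1 : (0:ℝ) < (n:ℝ) + 1 := by positivity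
    have h4 : q ^ L ≤ q ^ (C+1) * ((n:ℝ)+1)^(1+lam) := by
      have e3 : (L : ℝ) = (⌈(1 + lam) * Real.logb q ((n:ℝ) + 1)⌉₊ : ℝ) + C := by
        rw [hL]
        unfold ell
        push_cast
        rfl
      have hlog : 0 ≤ Real.logb q ((n:ℝ) + 1) := Real.logb_nonneg hq (by have : (0:ℝ) ≤ n := Nat.cast_nonneg n; linarith)
      have h5 : (⌈(1 + lam) * Real.logb q ((n:ℝ) + 1)⌉₊ : ℝ) < (1 + lam) * Real.logb q ((n:ℝ) + 1) + 1 :=
        Nat.ceil_lt_add_one (by positivity)
      rw [← Real.rpow_natCast q L, e3]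
      calc q ^ ((⌈(1 + lam) * Real.logb q ((n:ℝ) + 1)⌉₊ : ℝ) + C)
          ≤ q ^ ((C + 1 : ℕ) + Real.logb q ((n:ℝ) + 1) * (1 + lam) : ℝ) := by
            apply Real.rpow_le_rpow_of_exponent_le hq.le
            push_cast
            linarith
        _ = _ := by
            rw [Real.rpow_add hq0, Real.rpow_natCast, Real.rpow_mul hq0.le, Real.rpow_logb hq0 hq.ne' hn1]
    refine h4.trans ?_
    rw [mul_assoc]
    apply mul_le_mul_of_nonneg_left _ (by positivity)
    unfold fl
    split_ifs with h0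
    · rw [h0]
      norm_num
      exact Real.one_le_rpow (by norm_num) (by linarith)
    · rw [← Real.mul_rpow (by norm_num) (by positivity)]
      apply Real.rpow_le_rpow (by positivity) _ (by linarith)
      have : (1:ℝ) ≤ n := by
        have : 1 ≤ n := Nat.pos_of_ne_zero h0
        exact_mod_cast this
      linarith
  calc (q ^ (C+1) * 2 ^ (1 + lam))⁻¹ ≤ fl lam n * (q ^ L)⁻¹ := by
        rw [← div_eq_mul_inv, le_div_iff₀ (by positivity), inv_mul_eq_div, div_le_iff₀ (by positivity)]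
        linarith
    _ = fl lam n * q ^ n * (q ^ v)⁻¹ * (q ^ (m + L))⁻¹ := by
        rw [hm, pow_add, pow_add]
        field_simp
    _ ≤ fl lam n * q ^ n * (q ^ v)⁻¹ * absSeq (frac N Θ) := by
        apply mul_le_mul_of_nonneg_left h2 (by positivity)

theorem dim_lower {lam : ℝ} (hlam : 0 < lam) : 1 ≤ dimH (M F (fl lam)) := by
  let _ : MeasurableSpace (Ball F) := borel _
  have _ : BorelSpace (Ball F) := ⟨rfl⟩
  have hq := one_lt_q (F := F)
  -- for every s < 1 close to 1
  have key : ∀ s : ℝ≥0, (1/(1+lam) : ℝ) < s → (s:ℝ) < 1 → (s : ℝ≥0∞) ≤ dimH (M F (fl lam)) := by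
    intro s hs hs1
    have hs0 : 0 < (s:ℝ) := lt_trans (by positivity) hs
    have hsl : 1 < (s:ℝ) * (1 + lam) := by
      rwa [div_lt_iff₀ (by linarith)] at hs
    obtain ⟨C, hC, hsum⟩ := ell_sum hq hs0 hs1 hsl
    have h1 := hausdorff_lower (F := F) (l := ell (Fintype.card F) lam C)
      (fun n => by unfold ell; omega) hs0 hsum
    have h2 := le_dimH_of_hausdorffMeasure_ne_zero h1
    exact h2.trans (dimH_mono (E_subset_M hlam C))
  refine le_of_forall_lt fun c hc => ?_
  have hc' : c ≠ ⊤ := ne_top_of_lt hc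
  lift c to ℝ≥0 using hc'
  have hc1 : (c:ℝ) < 1 := by exact_mod_cast hc
  obtain ⟨s, hs1, hs2⟩ := exists_between (show max (c:ℝ) (1/(1+lam)) < 1 by
    rw [max_lt_iff]
    refine ⟨hc1, ?_⟩
    rw [div_lt_one (by linarith)]
    linarith)
  have hs0 : 0 ≤ s := le_trans (le_trans c.2 (le_max_left _ _)) hs1.le
  lift s to ℝ≥0 using hs0
  have h3 := key s (lt_of_le_of_lt (le_max_right _ _) hs1) hs2
  refine lt_of_lt_of_le ?_ h3
  have : (c:ℝ) < s := lt_of_le_of_lt (le_max_left _ _) hs1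
  exact_mod_cast this

end Pool.Agent.R331.TL
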