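import Pool.Agent.R331.TL.Dim

set_option autoImplicit false

namespace Pool.Agent.R331.TL

open Finset MeasureTheory
open scoped ENNReal NNReal

variable {F : Type} [Field F] [Fintype F]

theorem dim_upper (S : Set (Ball F)) : dimH S ≤ 1 := by
  classical
  let _ : MeasurableSpace (Ball F) := borel _
  have _ : BorelSpace (Ball F) := ⟨rfl⟩
  have hq := one_lt_q (F := F)
  have hr : Filter.Tendsto (fun n : ℕ => ENNReal.ofReal (((Fintype.card F : ℝ) ^ (n + 1))⁻¹)) Filter.atTop (nhds 0) := by
    rw [← ENNReal.ofReal_zero]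
    apply (ENNReal.continuous_ofReal.tendsto 0).comp
    have h1 : Filter.Tendsto (fun n : ℕ => (Fintype.card F : ℝ) ^ (n + 1)) Filter.atTop Filter.atTop :=
      (tendsto_pow_atTop_atTop_of_one_lt hq).comp (Filter.tendsto_add_atTop_nat 1)
    exact h1.inv_tendsto_atTop
  have hd : ∀ (n : ℕ) (i : Fin n → F), Metric.ediam {z : Ball F | ∀ p : Fin n, z.dig p = i p} ≤
      ENNReal.ofReal (((Fintype.card F : ℝ) ^ (n + 1))⁻¹) := by
    intro n i
    apply Metric.ediam_le
    intro z hz w hw
    rw [edist_dist, dist_eq]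
    apply ENNReal.ofReal_le_ofReal
    apply absSeq_le
    intro j hj
    have h1 := hz ⟨j, hj⟩
    have h2 := hw ⟨j, hj⟩
    show z.dig j - w.dig j = 0
    simp only at h1 h2
    rw [h1, h2, sub_self]
  have h := Measure.hausdorffMeasure_le_liminf_sum (X := Ball F) (ι := fun n : ℕ => (Fin n → F)) 1 S
    (l := Filter.atTop) (fun n : ℕ => ENNReal.ofReal (((Fintype.card F : ℝ) ^ (n + 1))⁻¹)) hr
    (fun n i => {z : Ball F | ∀ p : Fin n, z.dig p = i p})
    (Filter.Eventually.of_forall fun n i => hd n i)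
    (Filter.Eventually.of_forall fun n z _ => Set.mem_iUnion.mpr ⟨fun p => z.dig p, fun p => rfl⟩)
  have h2 : ∀ n : ℕ, ∑ i : Fin n → F, Metric.ediam {z : Ball F | ∀ p : Fin n, z.dig p = i p} ^ (1:ℝ) ≤ 1 := by
    intro n
    calc ∑ i : Fin n → F, Metric.ediam {z : Ball F | ∀ p : Fin n, z.dig p = i p} ^ (1:ℝ)
        ≤ ∑ _i : Fin n → F, ENNReal.ofReal (((Fintype.card F : ℝ) ^ (n + 1))⁻¹) := by
          apply Finset.sum_le_sum
          intro i _
          rw [ENNReal.rpow_one]
          exact hd n i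
      _ = ((Fintype.card F ^ n : ℕ) : ℝ≥0∞) * ENNReal.ofReal (((Fintype.card F : ℝ) ^ (n + 1))⁻¹) := by
          rw [Finset.sum_const, Finset.card_univ, Fintype.card_fun, Fintype.card_fin, nsmul_eq_mul]
      _ = ENNReal.ofReal ((Fintype.card F : ℝ) ^ n * ((Fintype.card F : ℝ) ^ (n + 1))⁻¹) := by
          rw [ENNReal.ofReal_mul (by positivity)]
          congr 1
          rw [← ENNReal.ofReal_natCast]
          push_cast
          rfl
      _ ≤ 1 := by
          rw [← ENNReal.ofReal_one]
          apply ENNReal.ofReal_le_ofReal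
          rw [← div_eq_mul_inv, div_le_one (by positivity)]
          exact pow_le_pow_right₀ hq.le (by omega)
  have h3 : Measure.hausdorffMeasure (1:ℝ) S ≤ 1 := by
    refine h.trans ?_
    refine Filter.liminf_le_of_le (by isBoundedDefault) ?_
    intro b hb
    obtain ⟨n, hn⟩ := hb.exists
    exact hn.trans (h2 n)
  have h4 := dimH_le_of_hausdorffMeasure_ne_top (d := 1) (s := S)
    (by
      have : Measure.hausdorffMeasure ((1:ℝ≥0):ℝ) S ≤ 1 := by simpa using h3
      exact ne_top_of_le_ne_top ENNReal.one_ne_top this)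
  simpa using h4

theorem dim_eq {lam : ℝ} (hlam : 0 < lam) : dimH (M F (fl lam)) = 1 :=
  le_antisymm (dim_upper _) (dim_lower hlam)

end Pool.Agent.R331.TL
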